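import Pool.Agent.Q283.FG.Stm4

/-!
# Project FG (helper283), job DCE: the classes of the differences, with the signs
-/

set_option autoImplicit false

namespace Pool.Agent.Q59.FG

open NumberField IsDedekindDomain
open Pool.Agent.Q283.LQ (Sm)
open Pool.Agent.Q7.LK
open Pool.Agent.Q283.FT (Rt df Gd Dcl)
open Pool.Agent.Q283.FG (cc NoFour Exc Matched Bs)

theorem df_ne {F : Type} [Field F] {e : Fin 3 → F} (he : Rt e) (l : Fin 3) : df e l ≠ 0 := by
  have h12 : e 1 ≠ e 2 := fun h => absurd (he.inj h) (by decide)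
  have h02 : e 0 ≠ e 2 := fun h => absurd (he.inj h) (by decide)
  have h01 : e 0 ≠ e 1 := fun h => absurd (he.inj h) (by decide)
  unfold df
  split_ifs
  · exact sub_ne_zero.2 h12
  · exact sub_ne_zero.2 h02
  · exact sub_ne_zero.2 h01

theorem mon_ne {F : Type} [Field F] {f : ℕ} {u : Fin f → F} (hu : ∀ l, u l ≠ 0) (c : Fin f → ZMod 2) :
    mon u c ≠ 0 := by
  unfold mon
  exact Finset.prod_ne_zero_iff.2 fun l _ => pow_ne_zero _ (hu l)

theorem isPow_mul {F : Type} [Field F] {a b m : F} (hm : m ≠ 0) (ha : IsPow 2 (a * m)) (hb : IsPow 2 (b * m)) :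
    IsPow 2 (a * b) := by
  obtain ⟨x, hx⟩ := ha
  obtain ⟨y, hy⟩ := hb
  refine ⟨x * y / m, ?_⟩
  field_simp
  calc a * b * m ^ 2 = (a * m) * (b * m) := by ring
    _ = x ^ 2 * y ^ 2 := by rw [hx, hy]

theorem val_even : ∀ x y : ZMod 2, (x + y).val + (x.val + y.val) = 2 * (x.val ||| y.val) := by decide

theorem mon_add {F : Type} [Field F] {f : ℕ} (u : Fin f → F) (a b : Fin f → ZMod 2) :
    IsPow 2 (mon u (a + b) * (mon u a * mon u b)) := by
  refine ⟨∏ l, u l ^ ((a l).val ||| (b l).val), ?_⟩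
  unfold mon
  rw [← Finset.prod_mul_distrib, ← Finset.prod_mul_distrib, ← Finset.prod_pow]
  refine Finset.prod_congr rfl fun l _ => ?_
  rw [← pow_add, ← pow_add, ← pow_mul, Pi.add_apply, val_even, mul_comm 2]

theorem mon_single {F : Type} [Field F] {f : ℕ} (u : Fin f → F) (t₀ : Fin f) :
    mon u (Pi.single t₀ 1 : Fin f → ZMod 2) = u t₀ := by
  unfold mon
  rw [Finset.prod_eq_single t₀]
  · rw [Pi.single_eq_same, ZMod.val_one, pow_one]
  · intro l _ hl
    rw [Pi.single_eq_of_ne hl, ZMod.val_zero, pow_zero]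
  · intro h
    exact absurd (Finset.mem_univ _) h

theorem neg_cls {F : Type} [Field F] {f : ℕ} {u : Fin f → F} (hu : ∀ l, u l ≠ 0) {t₀ : Fin f}
    (ht : u t₀ = -1) {d : F} {c : Fin f → ZMod 2} (h : IsPow 2 (d * mon u c)) :
    IsPow 2 (-d * mon u (c + Pi.single t₀ 1)) := by
  obtain ⟨x, hx⟩ := h
  obtain ⟨z, hz⟩ := mon_add u c (Pi.single t₀ 1)
  rw [mon_single, ht] at hz
  have hm := mon_ne hu c
  refine ⟨x * z / mon u c, ?_⟩
  rw [div_pow, mul_pow, ← hx, ← hz]
  field_simp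

theorem two_add {f : ℕ} {a b s : Fin f → ZMod 2} (h : a + b = s) : a = b + s := by
  have h2 : b + b = 0 := by
    funext l
    exact CharTwo.add_self_eq_zero (b l)
  rw [← h, add_comm a b, ← add_assoc, h2, zero_add]

theorem diff_cls {F : Type} [Field F] {f : ℕ} {u : Fin f → F} (hu : ∀ l, u l ≠ 0) {t₀ : Fin f}
    (ht : u t₀ = -1) {e : Fin 3 → F} {c : Fin 3 → Fin f → ZMod 2} (hc : Dcl u e c) :
    ∀ i j : Fin 3, i ≠ j → IsPow 2 ((e i - e j) * mon u (cc t₀ c i j)) := by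
  have h0 : IsPow 2 ((e 1 - e 2) * mon u (c 0)) := hc 0
  have h1 : IsPow 2 ((e 0 - e 2) * mon u (c 1)) := hc 1
  have h2 : IsPow 2 ((e 0 - e 1) * mon u (c 2)) := hc 2
  have h0' := neg_cls hu ht h0
  have h1' := neg_cls hu ht h1
  have h2' := neg_cls hu ht h2
  rw [neg_sub] at h0' h1' h2'
  intro i j hij
  fin_cases i <;> fin_cases j
  · exact absurd rfl hij
  · exact h2
  · exact h1
  · exact h2'
  · exact absurd rfl hij
  · exact h0
  · exact h1'
  · exact h0'
  · exact absurd rfl hij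

theorem dce : Pool.Agent.Q283.FG.S_DCE := by
  intro F _ _ ζ _ y f t₀ u r π g hB ht
  refine ⟨?_, ?_, ?_⟩
  · intro e he hg
    have h : ∀ l : Fin 3, ∃ c : Fin f → ZMod 2, IsPow 2 (df e l * mon u c) := by
      intro l
      refine hB.full _ (df_ne he l) ?_
      intro v hv
      unfold vl
      rw [(hg v hv).unit l]
      simp
    choose c hc using h
    exact ⟨c, hc⟩
  · intro e c _ hc hn hx
    refine ⟨fun h => hn.1 ?_, fun h => hn.2.2 ?_, fun h => hn.2.1 ?_, fun h => hx ⟨?_, ?_, ?_⟩⟩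
    · refine isPow_mul (mon_ne hB.ue (c 1)) (hc 1) ?_
      rw [h]
      exact hc 2
    · refine isPow_mul (mon_ne hB.ue (c 0)) (hc 0) ?_
      rw [h]
      exact hc 1
    · rw [← mul_neg]
      refine isPow_mul (mon_ne hB.ue (c 0)) (hc 0) ?_
      rw [two_add h]
      exact neg_cls hB.ue ht (hc 2)
    · rw [← mul_neg]
      refine isPow_mul (mon_ne hB.ue (c 1)) (hc 1) ?_
      rw [two_add h.2]
      exact neg_cls hB.ue ht (hc 2)
    · refine isPow_mul (mon_ne hB.ue (c 0)) (hc 0) ?_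
      rw [h.1]
      exact hc 2
    · rw [← neg_mul]
      refine isPow_mul (mon_ne hB.ue (c 1)) ?_ (hc 1)
      rw [two_add h.2, ← h.1]
      exact neg_cls hB.ue ht (hc 0)
  · intro e e' c c' _ _ hc hc' hm
    rintro ⟨σ, hσ⟩
    refine hm ⟨σ, fun i j hij => isPow_mul (mon_ne hB.ue (cc t₀ c i j)) (diff_cls hB.ue ht hc i j hij) ?_⟩
    rw [hσ i j hij]
    exact diff_cls hB.ue ht hc' (σ i) (σ j) (fun h => hij (σ.injective h))

end Pool.Agent.Q59.FG
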